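import Mathlib
import Pool.Agent.Lib.LQ.Final

set_option autoImplicit false

namespace Pool.Agent.Results.MP_de94cf_nt.PositiveDensity

/-- There is `ε > 0` such that for all large `N` each of the two signs is taken by `λ(n^2+1)`
for at least `ε N` integers `1 ≤ n ≤ N`. -/
theorem result :
    ∃ ε : ℝ, 0 < ε ∧ ∀ᶠ N : ℕ in Filter.atTop, ∀ σ : ℤ, σ = 1 ∨ σ = -1 →
      ε * (N : ℝ) ≤
        (((Finset.Icc 1 N).filter
          (fun n => ArithmeticFunction.liouville (n ^ 2 + 1) = σ)).card : ℝ) := by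
  obtain ⟨C, ε, X0, hC, hε, h⟩ := Pool.Agent.Lib.LQ.goal
  have hC0 : 0 < C := by linarith
  refine ⟨ε / C, by positivity, ?_⟩
  filter_upwards [Filter.eventually_ge_atTop (⌈C * X0⌉₊ + 1)] with N hN σ hσ
  have hN1 : (1 : ℝ) ≤ N := by exact_mod_cast (show 1 ≤ N by omega)
  have hN2 : C * X0 ≤ N := (Nat.le_ceil _).trans (by exact_mod_cast (show ⌈C * X0⌉₊ ≤ N by omega))
  have k := h (N / C) (-σ) (by rw [le_div_iff₀ hC0]; linarith) (by omega)
  have e : ε / C * N = ε * (N / C) := by ring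
  rw [e]
  refine k.trans (Nat.cast_le.2 (Finset.card_le_card fun n hn => ?_))
  obtain ⟨h1, h2, h3⟩ := Finset.mem_filter.1 hn
  have e2 : C * (N / C) = N := by field_simp
  rw [e2, Nat.floor_natCast, Finset.mem_range] at h1
  have h4 : (0 : ℝ) < n := lt_of_lt_of_le (by positivity) h2
  have h5 : 0 < n := by exact_mod_cast h4
  refine Finset.mem_filter.2 ⟨Finset.mem_Icc.2 ⟨h5, by omega⟩, ?_⟩
  unfold Pool.Agent.Lib.LQ.ff at h3
  rw [ArithmeticFunction.liouville_apply (by positivity)] at h3 ⊢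
  rcases neg_one_pow_eq_or ℤ (ArithmeticFunction.cardFactors (n ^ 2 + 1)) with t | t <;>
    rw [t] at h3 ⊢ <;> omega

end Pool.Agent.Results.MP_de94cf_nt.PositiveDensity
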